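import Pool.Agent.T9h19.RM.NotsU
import Pool.Agent.T9h19.RM.ZDefs
import Pool.Agent.H540R2.Lift.NegDefs

/-!
# The number of changes of the NOT gates along a chain
-/

set_option autoImplicit false

namespace Pool.Agent.T9h35.NW

open Finset Pool.Agent.H540R2 Pool.Agent.H540R2.Circuit Pool.Agent.T9h19.RM

variable {n : ℕ}

open Classical in
/-- the digits of the potential -/
noncomputable def cdig (D : Circuit n) (x : Fin n → Bool) (i : ℕ) : ℕ :=
  if i < D.size ∧ (D.gate i).isNot = true ∧ Feeds D (.gate i) ∧ D.val x i = false then 1 else 0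

/-- the bases of the potential -/
def cbas (D : Circuit n) (i : ℕ) : ℕ :=
  if i < D.size ∧ (D.gate i).isNot = true then 1 else 0

lemma cdig_le (D : Circuit n) (x : Fin n → Bool) (i : ℕ) : cdig D x i ≤ cbas D i := by
  unfold cdig cbas
  split_ifs with h1 h2 h2
  · exact le_rfl
  · exact absurd ⟨h1.1, h1.2.1⟩ h2
  · exact Nat.zero_le _
  · exact le_rfl

lemma prod_cbas (D : Circuit n) : ∏ l ∈ range (D.size + 1), (cbas D l + 1) = 2 ^ D.nots := by
  have h1 : ∀ l, cbas D l + 1 = if l < D.size ∧ (D.gate l).isNot = true then 2 else 1 := by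
    intro l
    unfold cbas
    split_ifs <;> rfl
  rw [prod_congr rfl fun l _ => h1 l, prod_ite, prod_const, prod_const_one, mul_one]
  congr 1
  unfold Circuit.nots
  congr 1
  ext l
  simp only [mem_filter, mem_range]
  constructor
  · rintro ⟨-, h2, h3⟩
    exact ⟨h2, h3⟩
  · rintro ⟨h2, h3⟩
    exact ⟨by omega, h2, h3⟩

/-- the potential -/
noncomputable def cpot (D : Circuit n) (x : Fin n → Bool) : ℕ := mix (cdig D x) (cbas D) D.size

lemma cpot_lt (D : Circuit n) (x : Fin n → Bool) : cpot D x + 1 ≤ 2 ^ D.nots := by
  rw [← prod_cbas]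
  exact mix_lt _ _ (cdig_le D x) D.size

/-- below the first NOT gate which changes the values are monotone -/
lemma val_mono_below {D : Circuit n} {x z : Fin n → Bool} (hxz : ∀ k, x k = true → z k = true)
    (i0 : ℕ) (h0 : ∀ i < i0, i < D.size → (D.gate i).isNot = true → Feeds D (.gate i) →
      D.val x i = D.val z i) :
    ∀ i < i0, i < D.size → Feeds D (.gate i) → (D.val x i = true → D.val z i = true) := by
  intro i
  induction i using Nat.strong_induction_on with
  | _ i ih =>
    intro hi0 hi hF
    have key : ∀ a : Node n, GReads (D.gate i) a →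
        (a.eval x (D.val x) = true → a.eval z (D.val z) = true) := by
      intro a ha
      cases a with
      | var k => exact hxz k
      | const b => exact fun h => h
      | gate j =>
        have hlt := D.gate_lt i hi j ha.wires
        exact ih j hlt (hlt.trans hi0) (hlt.trans hi) (Feeds.step i _ hF ha)
    cases hg : D.gate i with
    | and a b =>
      rw [hg] at key
      rw [D.val_gate hi, D.val_gate hi, hg]
      simp only [Gate.eval, Bool.and_eq_true]
      exact fun h => ⟨key a (Or.inl rfl) h.1, key b (Or.inr rfl) h.2⟩
    | or a b =>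
      rw [hg] at key
      rw [D.val_gate hi, D.val_gate hi, hg]
      simp only [Gate.eval, Bool.or_eq_true]
      exact fun h => h.imp (key a (Or.inl rfl)) (key b (Or.inr rfl))
    | not a =>
      intro h
      rw [← h0 i hi0 hi (by rw [hg]; rfl) hF]
      exact h

lemma cpot_chg {D : Circuit n} {x z : Fin n → Bool} (hxz : ∀ k, x k = true → z k = true)
    (h : NotChange D x z) : cpot D x < cpot D z := by
  classical
  unfold NotChange at h
  obtain ⟨hi, h1, h2, h3⟩ := Nat.find_spec h
  have hmin : ∀ i < Nat.find h, i < D.size → (D.gate i).isNot = true → Feeds D (.gate i) →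
      D.val x i = D.val z i := by
    intro i hi' hi2 hi3 hi4
    by_contra hc
    exact Nat.find_min h hi' ⟨hi2, hi3, hi4, hc⟩
  obtain ⟨i0, hi0⟩ : ∃ i0, i0 = Nat.find h := ⟨_, rfl⟩
  rw [← hi0] at hi h1 h2 h3 hmin
  have hmono := val_mono_below hxz i0 hmin
  refine mix_lt_mix _ _ _ (cdig_le D x) (l0 := i0) hi.le ?_ ?_
  · intro l hl
    unfold cdig
    by_cases hc : l < D.size ∧ (D.gate l).isNot = true ∧ Feeds D (.gate l)
    · have := hmin l hl hc.1 hc.2.1 hc.2.2
      rw [this]
    · rw [if_neg fun h' => hc ⟨h'.1, h'.2.1, h'.2.2.1⟩,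
        if_neg fun h' => hc ⟨h'.1, h'.2.1, h'.2.2.1⟩]
  · have hxt : D.val x i0 = true ∧ D.val z i0 = false := by
      cases hg : D.gate i0 with
      | and a b => rw [hg] at h1; exact absurd h1 (by simp [Gate.isNot])
      | or a b => rw [hg] at h1; exact absurd h1 (by simp [Gate.isNot])
      | not a =>
        have hop : a.eval x (D.val x) = true → a.eval z (D.val z) = true := by
          cases a with
          | var k => exact hxz k
          | const b => exact fun h => h
          | gate j =>
            have hr : GReads (D.gate i0) (.gate j) := by rw [hg]; rfl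
            have hlt := D.gate_lt i0 hi j hr.wires
            exact hmono j hlt (hlt.trans hi) (Feeds.step i0 _ h2 hr)
        rw [D.val_gate hi, D.val_gate hi, hg] at h3 ⊢
        simp only [Gate.eval] at h3 ⊢
        cases hx : a.eval x (D.val x) with
        | true =>
          rw [hx, hop hx] at h3
          exact absurd rfl h3
        | false =>
          cases hz : a.eval z (D.val z) with
          | true => exact ⟨rfl, rfl⟩
          | false =>
            rw [hx, hz] at h3
            exact absurd rfl h3
    unfold cdig
    rw [if_neg, if_pos]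
    · exact Nat.zero_lt_one
    · exact ⟨hi, h1, h2, hxt.2⟩
    · rintro ⟨-, -, -, h4⟩
      rw [hxt.1] at h4
      exact absurd h4 (by simp)

lemma cpot_mono {D : Circuit n} {x z : Fin n → Bool} (hxz : ∀ k, x k = true → z k = true) :
    cpot D x ≤ cpot D z := by
  classical
  by_cases h : NotChange D x z
  · exact (cpot_chg hxz h).le
  · apply le_of_eq
    unfold cpot
    congr 1
    funext i
    unfold cdig
    by_cases hc : i < D.size ∧ (D.gate i).isNot = true ∧ Feeds D (.gate i)
    · have : D.val x i = D.val z i := by
        by_contra h'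
        exact h ⟨i, hc.1, hc.2.1, hc.2.2, h'⟩
      rw [this]
    · rw [if_neg fun h' => hc ⟨h'.1, h'.2.1, h'.2.2.1⟩,
        if_neg fun h' => hc ⟨h'.1, h'.2.1, h'.2.2.1⟩]

/-- The number of changes along an increasing chain. -/
theorem changes_le (D : Circuit n) (z : ℕ → (Fin n → Bool))
    (hz : ∀ j k, z j k = true → z (j + 1) k = true) (M : ℕ) :
    open Classical in
    ((range M).filter fun j => NotChange D (z j) (z (j + 1))).card + 1 ≤ 2 ^ D.nots := by
  classical
  have key : ∀ M, ((range M).filter fun j => NotChange D (z j) (z (j + 1))).card ≤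
      cpot D (z M) := by
    intro M
    induction M with
    | zero => simp
    | succ M ih =>
      rw [range_add_one, filter_insert]
      by_cases h : NotChange D (z M) (z (M + 1))
      · rw [if_pos h, card_insert_of_notMem (by simp)]
        have := cpot_chg (hz M) h
        omega
      · rw [if_neg h]
        exact ih.trans (cpot_mono (hz M))
  exact (Nat.succ_le_succ (key M)).trans (cpot_lt D (z M))

end Pool.Agent.T9h35.NW
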