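import Pool.Agent.T9h35.NW.Dual
import Pool.Agent.T9h35.NW.Changes

/-!
# Counting
-/

set_option autoImplicit false

namespace Pool.Agent.T9h35.NW

open Finset Pool.Agent.H540R2 Pool.Agent.H540R2.Circuit Pool.Agent.T9h19.RM

lemma sum_blocks (f : ℕ → ℕ) (q h : ℕ) :
    ∑ a ∈ range q, ∑ j ∈ range h, f (a * h + j) = ∑ i ∈ range (q * h), f i := by
  induction q with
  | zero => simp
  | succ q ih =>
    rw [sum_range_succ, ih, Nat.succ_mul, sum_range_add]

open Classical in
/-- The covering argument. -/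
theorem cover {W : Type} [Fintype W] {N M T : ℕ} (hN : 0 < N) (A Chg : W → Fin N → ℕ → Prop)
    (h1 : ∀ i j, ∃ w, A w i j)
    (hwin : ∀ w j h, j + h ≤ M →
      2 ^ h * (univ.filter (fun i => A w i (j + h) ∧ ∀ l < h, ¬ Chg w i (j + l))).card ≤ N)
    (hchg : ∀ w i, ((range M).filter (fun j => Chg w i j)).card ≤ T) (h : ℕ) (hh1 : 1 ≤ h)
    (hhM : h ≤ M) : 2 ^ h * M ≤ Fintype.card W * (M + 2 ^ h * (2 * h * T)) := by
  obtain ⟨q, hq⟩ : ∃ q, q = M / h := ⟨_, rfl⟩
  have hqh : q * h ≤ M := by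
    rw [hq]
    exact Nat.div_mul_le_self _ _
  have hq1 : 1 ≤ q := by
    rw [hq]
    exact (Nat.le_div_iff_mul_le (by omega)).2 (by omega)
  have hMq : M ≤ 2 * h * q := by
    have := Nat.lt_mul_div_succ M (show 0 < h by omega)
    rw [← hq] at this
    nlinarith
  set Ev : W → ℕ → Fin N → ℕ := fun w a i =>
    if A w i (a * h + h) ∧ ∀ l < h, ¬ Chg w i (a * h + l) then 1 else 0 with hEv
  set c : W → Fin N → ℕ → ℕ := fun w i j => if Chg w i j then 1 else 0 with hc
  have hone : ∀ i : Fin N, ∀ a, 1 ≤ ∑ w : W, (Ev w a i + ∑ l ∈ range h, c w i (a * h + l)) := by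
    intro i a
    obtain ⟨w, hw⟩ := h1 i (a * h + h)
    have h2 : 1 ≤ Ev w a i + ∑ l ∈ range h, c w i (a * h + l) := by
      by_cases h3 : ∀ l < h, ¬ Chg w i (a * h + l)
      · have : Ev w a i = 1 := by
          simp only [hEv]
          rw [if_pos ⟨hw, h3⟩]
        omega
      · push Not at h3
        obtain ⟨l, hl, h3⟩ := h3
        have h4 : c w i (a * h + l) = 1 := by
          simp only [hc]
          rw [if_pos h3]
        have h5 : c w i (a * h + l) ≤ ∑ l ∈ range h, c w i (a * h + l) :=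
          single_le_sum (f := fun l => c w i (a * h + l)) (fun _ _ => Nat.zero_le _)
            (mem_range.2 hl)
        omega
    exact h2.trans (single_le_sum
      (f := fun w => Ev w a i + ∑ l ∈ range h, c w i (a * h + l))
      (fun _ _ => Nat.zero_le _) (mem_univ w))
  have hsum : N * q ≤ ∑ i : Fin N, ∑ a ∈ range q,
      ∑ w : W, (Ev w a i + ∑ l ∈ range h, c w i (a * h + l)) := by
    calc N * q = ∑ _i : Fin N, ∑ _a ∈ range q, 1 := by simp
      _ ≤ _ := sum_le_sum fun i _ => sum_le_sum fun a _ => hone i a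
  have hEs : ∀ w, ∀ a ∈ range q, 2 ^ h * ∑ i : Fin N, Ev w a i ≤ N := by
    intro w a ha
    have h2 := hwin w (a * h) h (by
      have : a + 1 ≤ q := mem_range.1 ha
      calc a * h + h = (a + 1) * h := by ring
        _ ≤ q * h := Nat.mul_le_mul_right _ this
        _ ≤ M := hqh)
    rw [card_filter] at h2
    exact h2
  have hcs : ∀ w i, ∑ a ∈ range q, ∑ l ∈ range h, c w i (a * h + l) ≤ T := by
    intro w i
    rw [sum_blocks (c w i)]
    calc ∑ j ∈ range (q * h), c w i j ≤ ∑ j ∈ range M, c w i j :=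
          sum_le_sum_of_subset (range_subset_range.2 hqh)
      _ = ((range M).filter (fun j => Chg w i j)).card := by rw [card_filter]
      _ ≤ T := hchg w i
  have hb : 2 ^ h * ∑ i : Fin N, ∑ a ∈ range q,
      ∑ w : W, (Ev w a i + ∑ l ∈ range h, c w i (a * h + l)) ≤
      Fintype.card W * (q * N) + 2 ^ h * (Fintype.card W * (N * T)) := by
    have e1 : ∑ i : Fin N, ∑ a ∈ range q,
        ∑ w : W, (Ev w a i + ∑ l ∈ range h, c w i (a * h + l)) =
        ∑ w : W, ((∑ a ∈ range q, ∑ i : Fin N, Ev w a i) +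
          ∑ i : Fin N, ∑ a ∈ range q, ∑ l ∈ range h, c w i (a * h + l)) := by
      have e2 : ∀ i : Fin N, ∑ a ∈ range q, ∑ w : W,
          (Ev w a i + ∑ l ∈ range h, c w i (a * h + l)) =
          ∑ w : W, ((∑ a ∈ range q, Ev w a i) +
            ∑ a ∈ range q, ∑ l ∈ range h, c w i (a * h + l)) := by
        intro i
        rw [sum_comm]
        apply sum_congr rfl
        intro w _
        rw [sum_add_distrib]
      rw [sum_congr rfl fun i _ => e2 i, sum_comm]
      apply sum_congr rfl
      intro w _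
      rw [sum_add_distrib]
      congr 1
      rw [sum_comm]
    rw [e1, sum_add_distrib, mul_add]
    apply Nat.add_le_add
    · calc 2 ^ h * ∑ w : W, ∑ a ∈ range q, ∑ i : Fin N, Ev w a i
          = ∑ w : W, ∑ a ∈ range q, 2 ^ h * ∑ i : Fin N, Ev w a i := by
            rw [mul_sum]
            exact sum_congr rfl fun w _ => mul_sum _ _ _
        _ ≤ ∑ _w : W, ∑ _a ∈ range q, N :=
            sum_le_sum fun w _ => sum_le_sum fun a ha => hEs w a ha
        _ = Fintype.card W * (q * N) := by simp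
    · apply Nat.mul_le_mul_left
      calc ∑ w : W, ∑ i : Fin N, ∑ a ∈ range q, ∑ l ∈ range h, c w i (a * h + l)
          ≤ ∑ _w : W, ∑ _i : Fin N, T := sum_le_sum fun w _ => sum_le_sum fun i _ => hcs w i
        _ = Fintype.card W * (N * T) := by simp
  have h5 : 2 ^ h * (N * q) ≤
      Fintype.card W * (q * N) + 2 ^ h * (Fintype.card W * (N * T)) :=
    (Nat.mul_le_mul_left _ hsum).trans hb
  have h6 : 2 ^ h * q ≤ Fintype.card W * (q + 2 ^ h * T) := by
    apply Nat.le_of_mul_le_mul_left _ hN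
    calc N * (2 ^ h * q) = 2 ^ h * (N * q) := by ring
      _ ≤ _ := h5
      _ = N * (Fintype.card W * (q + 2 ^ h * T)) := by ring
  apply Nat.le_of_mul_le_mul_left _ hq1
  calc q * (2 ^ h * M) = 2 ^ h * q * M := by ring
    _ ≤ Fintype.card W * (q + 2 ^ h * T) * M := Nat.mul_le_mul_right _ h6
    _ = Fintype.card W * (q * M + 2 ^ h * T * M) := by ring
    _ ≤ Fintype.card W * (q * M + 2 ^ h * T * (2 * h * q)) :=
        Nat.mul_le_mul_left _ (Nat.add_le_add_left (Nat.mul_le_mul_left _ hMq) _)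
    _ = q * (Fintype.card W * (M + 2 ^ h * (2 * h * T))) := by ring

variable {n : ℕ}

lemma dn_dn (a : Node n) : dn (dn a) = a := by
  cases a <;> simp [dn]

lemma dg_dg (g : Gate n) : dg (dg g) = g := by
  cases g <;> simp [dg, dn_dn]

lemma dc_dc (C : Circuit n) : dc (dc C) = C := by
  cases C
  simp [dc, dg_dg, dn_dn]

lemma change_dc' {C : Circuit n} {x z : Fin n → Bool} (h : NotChange C x z) :
    NotChange (dc C) (fun k => !(x k)) (fun k => !(z k)) := by
  apply change_dc
  rw [dc_dc]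
  simpa using h

open Classical in
/-- The number of changes along a decreasing chain. -/
theorem changes_le' (D : Circuit n) (z : ℕ → (Fin n → Bool))
    (hz : ∀ j k, z (j + 1) k = true → z j k = true) (M : ℕ) :
    ((range M).filter fun j => NotChange D (z j) (z (j + 1))).card + 1 ≤ 2 ^ D.nots := by
  have h1 := changes_le (dc D) (fun j k => !(z j k)) (fun j k hk => by
    rw [Bool.not_eq_true'] at hk ⊢
    rw [Bool.eq_false_iff] at hk ⊢
    exact fun h => hk (hz j k h)) M
  rw [nots_dc] at h1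
  refine le_trans (Nat.add_le_add_right (card_le_card fun j hj => ?_) 1) h1
  obtain ⟨h2, h3⟩ := mem_filter.mp hj
  exact mem_filter.mpr ⟨h2, change_dc' h3⟩

end Pool.Agent.T9h35.NW
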