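import Pool.Agent.T9h19.RM.ZDefs
import Pool.Agent.H540R2.Build
import Pool.Agent.H540R2.Lift.NegDefs

/-!
# The dual circuit
-/

set_option autoImplicit false

namespace Pool.Agent.T9h35.NW

open Finset Pool.Agent.H540R2 Pool.Agent.H540R2.Circuit Pool.Agent.T9h19.RM

variable {n : ℕ}

/-- dual node -/
def dn : Node n → Node n
  | .var i => .var i
  | .const b => .const (!b)
  | .gate j => .gate j

/-- dual gate -/
def dg : Gate n → Gate n
  | .and a b => .or (dn a) (dn b)
  | .or a b => .and (dn a) (dn b)
  | .not a => .not (dn a)

lemma wires_dn (a : Node n) (j : ℕ) : (dn a).wires j = a.wires j := by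
  cases a <;> rfl

lemma wires_dg (g : Gate n) (j : ℕ) : (dg g).wires j = g.wires j := by
  cases g <;> simp [dg, Gate.wires, wires_dn]

/-- the dual circuit -/
def dc (C : Circuit n) : Circuit n where
  size := C.size
  gate i := dg (C.gate i)
  out := dn C.out
  gate_lt i hi j hj := C.gate_lt i hi j (by rwa [wires_dg] at hj)
  out_lt j hj := C.out_lt j (by rwa [wires_dn] at hj)

lemma eval_dn (x : Fin n → Bool) (v v' : ℕ → Bool) (a : Node n)
    (h : ∀ j, a = .gate j → v' j = !(v j)) :
    (dn a).eval (fun k => !(x k)) v' = !(a.eval x v) := by
  cases a with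
  | var i => rfl
  | const b => rfl
  | gate j => exact h j rfl

lemma val_dc (C : Circuit n) (x : Fin n → Bool) : ∀ i < C.size,
    (dc C).val (fun k => !(x k)) i = !(C.val x i) := by
  intro i
  induction i using Nat.strong_induction_on with
  | _ i ih =>
    intro hi
    rw [(dc C).val_gate (show i < (dc C).size from hi), C.val_gate hi]
    have key : ∀ a : Node n, GReads (C.gate i) a →
        (dn a).eval (fun k => !(x k)) ((dc C).val (fun k => !(x k))) = !(a.eval x (C.val x)) := by
      intro a ha
      apply eval_dn
      intro j hj
      subst hj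
      have hlt : j < i := by
        apply C.gate_lt i hi j
        cases hg : C.gate i with
        | and a b =>
          rw [hg] at ha
          rcases ha with h | h
          · subst h; simp [Gate.wires, Node.wires]
          · subst h; simp [Gate.wires, Node.wires]
        | or a b =>
          rw [hg] at ha
          rcases ha with h | h
          · subst h; simp [Gate.wires, Node.wires]
          · subst h; simp [Gate.wires, Node.wires]
        | not a =>
          rw [hg] at ha
          subst ha
          simp [Gate.wires, Node.wires]
      exact ih j hlt (hlt.trans hi)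
    show (dg (C.gate i)).eval _ _ = _
    cases hg : C.gate i with
    | and a b =>
      rw [hg] at key
      simp only [dg, Gate.eval]
      rw [key a (Or.inl rfl), key b (Or.inr rfl)]
      cases a.eval x (C.val x) <;> cases b.eval x (C.val x) <;> rfl
    | or a b =>
      rw [hg] at key
      simp only [dg, Gate.eval]
      rw [key a (Or.inl rfl), key b (Or.inr rfl)]
      cases a.eval x (C.val x) <;> cases b.eval x (C.val x) <;> rfl
    | not a =>
      rw [hg] at key
      simp only [dg, Gate.eval]
      rw [key a rfl]

lemma eval_dc (C : Circuit n) (x : Fin n → Bool) :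
    (dc C).eval (fun k => !(x k)) = !(C.eval x) := by
  show (dn C.out).eval _ _ = _
  apply eval_dn
  intro j hj
  apply val_dc
  apply C.out_lt j
  rw [hj]
  simp [Node.wires]

lemma depth_dn (d d' : ℕ → ℕ) (a : Node n) (h : ∀ j, a = .gate j → d' j = d j) :
    (dn a).depth d' = a.depth d := by
  cases a with
  | var i => rfl
  | const b => rfl
  | gate j => exact h j rfl

lemma gateDepth_dc (C : Circuit n) : ∀ i < C.size, (dc C).gateDepth i = C.gateDepth i := by
  intro i
  induction i using Nat.strong_induction_on with
  | _ i ih =>
    intro hi
    rw [(dc C).gateDepth_gate (show i < (dc C).size from hi), C.gateDepth_gate hi]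
    have key : ∀ a : Node n, (∀ j, a = .gate j → (C.gate i).wires j ≠ 0) →
        (dn a).depth (dc C).gateDepth = a.depth C.gateDepth := by
      intro a ha
      apply depth_dn
      intro j hj
      have hlt := C.gate_lt i hi j (ha j hj)
      exact ih j hlt (hlt.trans hi)
    show (dg (C.gate i)).depth _ = _
    cases hg : C.gate i with
    | and a b =>
      rw [hg] at key
      simp only [dg, Gate.depth]
      rw [key a (fun j hj => by subst hj; simp [Gate.wires, Node.wires]),
        key b (fun j hj => by subst hj; simp [Gate.wires, Node.wires])]
    | or a b =>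
      rw [hg] at key
      simp only [dg, Gate.depth]
      rw [key a (fun j hj => by subst hj; simp [Gate.wires, Node.wires]),
        key b (fun j hj => by subst hj; simp [Gate.wires, Node.wires])]
    | not a =>
      rw [hg] at key
      simp only [dg, Gate.depth]
      rw [key a (fun j hj => by subst hj; simp [Gate.wires, Node.wires])]

lemma depth_dc (C : Circuit n) : (dc C).depth = C.depth := by
  show (dn C.out).depth _ = C.out.depth _
  apply depth_dn
  intro j hj
  apply gateDepth_dc
  apply C.out_lt j
  rw [hj]
  simp [Node.wires]

lemma isNot_dg (g : Gate n) : (dg g).isNot = g.isNot := by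
  cases g <;> rfl

lemma nots_dc (C : Circuit n) : (dc C).nots = C.nots := by
  unfold Circuit.nots
  show ((range C.size).filter (fun i => (dg (C.gate i)).isNot = true)).card = _
  simp only [isNot_dg]

lemma feeds_dc {C : Circuit n} {w : Node n} (h : Feeds (dc C) w) :
    ∃ w', dn w' = w ∧ Feeds C w' := by
  induction h with
  | out => exact ⟨C.out, rfl, Feeds.out⟩
  | step j w h hw ih =>
    obtain ⟨w', h1, h2⟩ := ih
    have hw' : w' = .gate j := by
      cases w' with
      | var i => exact absurd h1 (by simp [dn])
      | const b => exact absurd h1 (by simp [dn])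
      | gate i =>
        simp only [dn] at h1
        exact h1
    subst hw'
    change GReads (dg (C.gate j)) w at hw
    cases hg : C.gate j with
    | and a b =>
      rw [hg] at hw
      rcases hw with h | h
      · exact ⟨a, h.symm, Feeds.step j a h2 (by rw [hg]; exact Or.inl rfl)⟩
      · exact ⟨b, h.symm, Feeds.step j b h2 (by rw [hg]; exact Or.inr rfl)⟩
    | or a b =>
      rw [hg] at hw
      rcases hw with h | h
      · exact ⟨a, h.symm, Feeds.step j a h2 (by rw [hg]; exact Or.inl rfl)⟩
      · exact ⟨b, h.symm, Feeds.step j b h2 (by rw [hg]; exact Or.inr rfl)⟩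
    | not a =>
      rw [hg] at hw
      exact ⟨a, Eq.symm hw, Feeds.step j a h2 (by rw [hg]; rfl)⟩

lemma change_dc {C : Circuit n} {x z : Fin n → Bool}
    (h : NotChange (dc C) (fun k => !(x k)) (fun k => !(z k))) : NotChange C x z := by
  obtain ⟨i, hi, h1, h2, h3⟩ := h
  have hi' : i < C.size := hi
  refine ⟨i, hi', ?_, ?_, ?_⟩
  · change (dg (C.gate i)).isNot = true at h1
    rwa [isNot_dg] at h1
  · obtain ⟨w', h4, h5⟩ := feeds_dc h2
    have hw' : w' = .gate i := by
      cases w' with
      | var i => exact absurd h4 (by simp [dn])
      | const b => exact absurd h4 (by simp [dn])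
      | gate j =>
        simp only [dn] at h4
        exact h4
    subst hw'
    exact h5
  · rw [val_dc C x i hi', val_dc C z i hi'] at h3
    exact fun h => h3 (by rw [h])

end Pool.Agent.T9h35.NW
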