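import Pool.Agent.T9h35.NW.TwoSided

/-!
# Witness bits and NOT gates in small depth
-/

set_option autoImplicit false

namespace Pool.Agent.T9h35.NW

open Finset Pool.Agent.H540R2 Pool.Agent.H540R2.Circuit Pool.Agent.T9h19.RM

open Classical in
theorem final : ∃ K : ℕ, ∀ S d : ℕ, 1 ≤ S → 1 ≤ d → ∃ (n : ℕ) (C : Circuit n) (M : ℕ),
    C.Monotone ∧ C.size ≤ S ∧ n ≤ 4 * S ∧
    C.depth ≤ K * (d * (Nat.log 2 d + 1) + Nat.log 2 S) ∧ S ≤ (K * d) ^ K * (M + 1) ∧
    (∃ (N : ℕ) (z : Fin N → ℕ → (Fin n → Bool)), 0 < N ∧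
      (∀ i j, C.eval (z i j) = false) ∧ (∀ i j k, z i j k = true → z i (j + 1) k = true) ∧
      ∀ D : Circuit n, D.depth ≤ d → (∀ x, C.eval x = true → D.eval x = true) →
        ∀ j h, j + h ≤ M → 2 ^ h * (univ.filter (fun i => D.eval (z i (j + h)) = false ∧
          ∀ l < h, ¬ NotChange D (z i (j + l)) (z i (j + l + 1)))).card ≤ N) ∧
    (∃ (N : ℕ) (z : Fin N → ℕ → (Fin n → Bool)), 0 < N ∧
      (∀ i j, C.eval (z i j) = true) ∧ (∀ i j k, z i (j + 1) k = true → z i j k = true) ∧
      ∀ D : Circuit n, D.depth ≤ d → (∀ x, D.eval x = true → C.eval x = true) →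
        ∀ j h, j + h ≤ M → 2 ^ h * (univ.filter (fun i => D.eval (z i (j + h)) = true ∧
          ∀ l < h, ¬ NotChange D (z i (j + l)) (z i (j + l + 1)))).card ≤ N) ∧
    ∀ (W : Type) [Fintype W] (D : W → Circuit n) (t : ℕ),
      (∀ w, (D w).depth ≤ d ∧ (D w).nots ≤ t) →
      ((∀ x, C.eval x = true ↔ ∃ w, (D w).eval x = true) ∨
        (∀ x, C.eval x = true ↔ ∀ w, (D w).eval x = true)) →
      ∀ h, 1 ≤ h → h ≤ M →
        2 ^ h * M ≤ Fintype.card W * (M + 2 ^ h * (2 * h * (2 ^ t - 1))) := by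
  refine ⟨3000, fun S d hS hd => ?_⟩
  obtain ⟨n, C, M, h1, h2, h3, h4, h5, h6, h7⟩ := two_sided S d hS hd
  refine ⟨n, C, M, h1, h2, h3, h4, h5.trans (Nat.mul_le_mul_right _ ?_), h6, h7, ?_⟩
  · calc (60 * d) ^ 60 ≤ (3000 * d) ^ 60 :=
          Nat.pow_le_pow_left (Nat.mul_le_mul_right _ (by norm_num)) _
      _ ≤ _ := Nat.pow_le_pow_right (by omega) (by norm_num)
  · intro W _ D t hD hE h hh1 hhM
    have hpow : ∀ w, 2 ^ (D w).nots ≤ 2 ^ t := fun w =>
      Nat.pow_le_pow_right (by norm_num) (hD w).2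
    rcases hE with hE | hE
    · obtain ⟨N, z, hN, hz, hz2, hh⟩ := h7
      refine cover hN (fun w i j => (D w).eval (z i j) = true)
        (fun w i j => NotChange (D w) (z i j) (z i (j + 1)))
        (fun i j => (hE _).mp (hz i j)) (fun w j h hjh => ?_) (fun w i => ?_) h hh1 hhM
      · have := hh (D w) (hD w).1 (fun x hx => (hE x).mpr ⟨w, hx⟩) j h hjh
        convert this
      · have h8 := changes_le' (D w) (z i) (hz2 i) M
        have h9 := hpow w
        omega
    · obtain ⟨N, z, hN, hz, hz2, hh⟩ := h6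
      refine cover hN (fun w i j => (D w).eval (z i j) = false)
        (fun w i j => NotChange (D w) (z i j) (z i (j + 1)))
        (fun i j => ?_) (fun w j h hjh => ?_) (fun w i => ?_) h hh1 hhM
      · by_contra hc
        push Not at hc
        have h8 := (hE (z i j)).mpr fun w => by
          have := hc w
          simpa using this
        rw [hz i j] at h8
        exact absurd h8 (by simp)
      · have := hh (D w) (hD w).1 (fun x hx => (hE x).mp hx w) j h hjh
        convert this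
      · have h8 := changes_le (D w) (z i) (hz2 i) M
        have h9 := hpow w
        omega

end Pool.Agent.T9h35.NW
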