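import Pool.Agent.T9h19.RM.WProd

/-!
# The product bound for the segments of a random chain
-/

set_option autoImplicit false

namespace Pool.Agent.T9h35.NW

open Finset Pool.Agent.T9h19.RM

variable {B V : Type} [Fintype B] [DecidableEq B] {M : ℕ}

lemma preG_update_le {enc : B → V → Bool} {f₀ : V → Bool} (y : Fin M → B) (j : Fin M) (b : B)
    {l : ℕ} (hl : l ≤ j.val) :
    preG enc f₀ (Function.update y j b) l = preG enc f₀ y l := by
  funext i
  unfold preG
  by_cases h : i.val < l
  · rw [if_pos h, if_pos h, Function.update_of_ne (fun h' => by subst h'; omega)]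
  · rw [if_neg h, if_neg h]

/-- The bound for a segment. -/
theorem window_prod (enc : B → V → Bool) (f₀ : V → Bool) (P : (Fin M → V → Bool) → Prop)
    (R : (Fin M → V → Bool) → (Fin M → V → Bool) → Prop) (q : ℕ) (hB : 0 < Fintype.card B)
    (hback : ∀ (y : Fin M → B) (j : Fin M), P (preG enc f₀ y (j.val + 1)) →
      R (preG enc f₀ y j.val) (preG enc f₀ y (j.val + 1)) → P (preG enc f₀ y j.val))
    (hstep : open Classical in ∀ (y : Fin M → B) (j : Fin M), (univ.filter (fun b : B =>
      P (Function.update (preG enc f₀ y j.val) j (enc b)) ∧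
      R (preG enc f₀ y j.val) (Function.update (preG enc f₀ y j.val) j (enc b)))).card * q ≤
        Fintype.card B)
    (i h : ℕ) (hih : i + h ≤ M) :
    open Classical in
    (univ.filter (fun y : Fin M → B => P (preG enc f₀ y (i + h)) ∧
      ∀ l < h, R (preG enc f₀ y (i + l)) (preG enc f₀ y (i + l + 1)))).card * q ^ h ≤
      Fintype.card B ^ M := by
  classical
  induction h with
  | zero =>
    rw [pow_zero, mul_one]
    refine (card_le_univ _).trans ?_
    rw [Fintype.card_fun, Fintype.card_fin]
  | succ h ih =>
    have ih' := ih (by omega)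
    obtain ⟨jj, hjj⟩ : ∃ jj : Fin M, jj.val = i + h := ⟨⟨i + h, by omega⟩, rfl⟩
    set Ev : (Fin M → B) → Prop := fun y => P (preG enc f₀ y (i + h)) ∧
      ∀ l < h, R (preG enc f₀ y (i + l)) (preG enc f₀ y (i + l + 1)) with hEv
    set H : (Fin M → B) → B → ℕ := fun y b =>
      if Ev y ∧ P (Function.update (preG enc f₀ y jj.val) jj (enc b)) ∧
        R (preG enc f₀ y jj.val) (Function.update (preG enc f₀ y jj.val) jj (enc b))
        then 1 else 0 with hH
    have hEvu : ∀ y b', Ev (Function.update y jj b') ↔ Ev y := by
      intro y b'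
      simp only [hEv]
      rw [preG_update_le y jj b' (by omega)]
      constructor
      · rintro ⟨h1, h2⟩
        refine ⟨h1, fun l hl => ?_⟩
        have := h2 l hl
        rwa [preG_update_le y jj b' (by omega), preG_update_le y jj b' (by omega)] at this
      · rintro ⟨h1, h2⟩
        refine ⟨h1, fun l hl => ?_⟩
        rw [preG_update_le y jj b' (by omega), preG_update_le y jj b' (by omega)]
        exact h2 l hl
    have hHu : ∀ y b b', H (Function.update y jj b') b = H y b := by
      intro y b b'
      simp only [hH, hEvu, preG_update]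
    have e1 : (univ.filter (fun y : Fin M → B => P (preG enc f₀ y (i + (h + 1))) ∧
        ∀ l < h + 1, R (preG enc f₀ y (i + l)) (preG enc f₀ y (i + l + 1)))).card ≤
        ∑ y : Fin M → B, H y (y jj) := by
      rw [card_filter]
      refine sum_le_sum fun y _ => ?_
      by_cases hc : P (preG enc f₀ y (i + (h + 1))) ∧
        ∀ l < h + 1, R (preG enc f₀ y (i + l)) (preG enc f₀ y (i + l + 1))
      · rw [if_pos hc]
        obtain ⟨h1, h2⟩ := hc
        have h3 := h2 h (Nat.lt_succ_self h)
        rw [show i + (h + 1) = jj.val + 1 by omega] at h1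
        rw [show i + h = jj.val by omega] at h3
        have h4 := hback y jj h1 h3
        simp only [hH]
        rw [if_pos]
        rw [← preG_succ]
        refine ⟨⟨?_, fun l hl => h2 l (by omega)⟩, h1, h3⟩
        rw [show i + h = jj.val by omega]
        exact h4
      · rw [if_neg hc]
        exact Nat.zero_le _
    have e2 : ∀ y : Fin M → B, (∑ b : B, H y b) * q ≤
        Fintype.card B * (if Ev y then 1 else 0) := by
      intro y
      by_cases hc : Ev y
      · rw [if_pos hc, mul_one]
        have h1 : ∑ b : B, H y b = (univ.filter (fun b : B =>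
            P (Function.update (preG enc f₀ y jj.val) jj (enc b)) ∧
            R (preG enc f₀ y jj.val)
              (Function.update (preG enc f₀ y jj.val) jj (enc b)))).card := by
          rw [card_filter]
          refine sum_congr rfl fun b _ => ?_
          simp only [hH, hc, true_and]
        rw [h1]
        exact hstep y jj
      · rw [if_neg hc]
        have h1 : ∑ b : B, H y b = 0 := by
          refine sum_eq_zero fun b _ => ?_
          simp only [hH, hc, false_and, if_false]
        rw [h1]
        simp
    have e3 := resample jj H hHu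
    have e4 : Fintype.card B * ((univ.filter (fun y : Fin M → B =>
          P (preG enc f₀ y (i + (h + 1))) ∧
          ∀ l < h + 1, R (preG enc f₀ y (i + l)) (preG enc f₀ y (i + l + 1)))).card * q) ≤
        Fintype.card B * (univ.filter Ev).card := by
      calc Fintype.card B * ((univ.filter (fun y : Fin M → B =>
            P (preG enc f₀ y (i + (h + 1))) ∧
            ∀ l < h + 1, R (preG enc f₀ y (i + l)) (preG enc f₀ y (i + l + 1)))).card * q)
          ≤ Fintype.card B * ((∑ y : Fin M → B, H y (y jj)) * q) :=
            Nat.mul_le_mul_left _ (Nat.mul_le_mul_right _ e1)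
        _ = (Fintype.card B * ∑ y : Fin M → B, H y (y jj)) * q := by ring
        _ = ∑ y : Fin M → B, (∑ b : B, H y b) * q := by rw [e3, sum_mul]
        _ ≤ ∑ y : Fin M → B, Fintype.card B * (if Ev y then 1 else 0) :=
            sum_le_sum fun y _ => e2 y
        _ = _ := by rw [← mul_sum, card_filter]
    have e5 := Nat.le_of_mul_le_mul_left e4 hB
    calc (univ.filter (fun y : Fin M → B => P (preG enc f₀ y (i + (h + 1))) ∧
          ∀ l < h + 1, R (preG enc f₀ y (i + l)) (preG enc f₀ y (i + l + 1)))).card * q ^ (h + 1)
        = ((univ.filter (fun y : Fin M → B => P (preG enc f₀ y (i + (h + 1))) ∧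
          ∀ l < h + 1, R (preG enc f₀ y (i + l)) (preG enc f₀ y (i + l + 1)))).card * q) *
            q ^ h := by ring
      _ ≤ (univ.filter Ev).card * q ^ h := Nat.mul_le_mul_right _ e5
      _ ≤ _ := ih'

end Pool.Agent.T9h35.NW
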