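import Pool.Agent.T9h35.NW.Win
import Pool.Agent.T9h35.NW.Cover

/-!
# Approximation by circuits of small depth with NOT gates
-/

set_option autoImplicit false

namespace Pool.Agent.T9h35.NW

open Finset Pool.Agent.H540R2 Pool.Agent.H540R2.Circuit Pool.Agent.T9h19.RM

lemma der_one {h m : ℕ} (k : ℕ) : ∀ (i j : ℕ) (c : Fin m),
    Der (h := h) (fun _ => true) k i j c := by
  induction k with
  | zero => exact fun i j c => rfl
  | succ k ih => exact fun i j c => ⟨c, c, rfl, ih _ _ c, ih _ _ c⟩

lemma gen_one {h m : ℕ} (c : Fin m) : gen h m (fun _ => true) = true := by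
  rw [gen_eq_true]
  exact ⟨c, der_one h 0 0 c, rfl⟩

open Classical in
/-- **One-sided approximation by circuits of small depth.** -/
theorem two_sided (S d : ℕ) (hS : 1 ≤ S) (hd : 1 ≤ d) : ∃ (n : ℕ) (C : Circuit n) (M : ℕ),
    C.Monotone ∧ C.size ≤ S ∧ n ≤ 4 * S ∧
    C.depth ≤ 3000 * (d * (Nat.log 2 d + 1) + Nat.log 2 S) ∧ S ≤ (60 * d) ^ 60 * (M + 1) ∧
    (∃ (N : ℕ) (z : Fin N → ℕ → (Fin n → Bool)), 0 < N ∧
      (∀ i j, C.eval (z i j) = false) ∧ (∀ i j k, z i j k = true → z i (j + 1) k = true) ∧
      ∀ D : Circuit n, D.depth ≤ d → (∀ x, C.eval x = true → D.eval x = true) →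
        ∀ j h, j + h ≤ M → 2 ^ h * (univ.filter (fun i => D.eval (z i (j + h)) = false ∧
          ∀ l < h, ¬ NotChange D (z i (j + l)) (z i (j + l + 1)))).card ≤ N) ∧
    (∃ (N : ℕ) (z : Fin N → ℕ → (Fin n → Bool)), 0 < N ∧
      (∀ i j, C.eval (z i j) = true) ∧ (∀ i j k, z i (j + 1) k = true → z i j k = true) ∧
      ∀ D : Circuit n, D.depth ≤ d → (∀ x, D.eval x = true → C.eval x = true) →
        ∀ j h, j + h ≤ M → 2 ^ h * (univ.filter (fun i => D.eval (z i (j + h)) = true ∧
          ∀ l < h, ¬ NotChange D (z i (j + l)) (z i (j + l + 1)))).card ≤ N) := by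
  classical
  set a := Nat.clog 2 (2 * (d + 3)) with ha
  have ha1 : 2 * (d + 3) ≤ 2 ^ a := Nat.le_pow_clog (by norm_num) _
  have hapos : 1 ≤ a := Nat.clog_pos (by norm_num) (by omega)
  have hpow : 2 ^ a = 2 * 2 ^ (a - 1) := by
    rw [← pow_succ', show a - 1 + 1 = a by omega]
  have ha2 : 2 ^ a ≤ 16 * d := by
    have h4 : 1 < 2 * (d + 3) := by omega
    have h2 : 2 ^ (a - 1) < 2 * (d + 3) := Nat.pow_pred_clog_lt_self (b := 2) (by norm_num) h4
    omega
  have ha3 : a + 1 + d + 1 < 2 ^ a := by
    have h1 : a - 1 < 2 ^ (a - 1) := Nat.lt_two_pow_self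
    omega
  have ha4 : a ≤ Nat.log 2 d + 4 := by
    have h1 : d < 2 ^ (Nat.log 2 d + 1) := Nat.lt_pow_succ_log_self (by norm_num) d
    apply Nat.clog_le_of_le_pow
    have h2 : 2 ^ (Nat.log 2 d + 4) = 8 * 2 ^ (Nat.log 2 d + 1) := by
      rw [show Nat.log 2 d + 4 = (Nat.log 2 d + 1) + 3 by ring, pow_add 2 _ 3]
      ring
    omega
  obtain ⟨w, hw⟩ : ∃ w, w = wa a := ⟨_, rfl⟩
  have hw1 : 1 ≤ w := hw ▸ wa_pos a
  obtain ⟨M, hM⟩ : ∃ M, M = (S - 1) / (w + 3) := ⟨_, rfl⟩
  have hSM : S ≤ (w + 3) * (M + 1) := by
    have := Nat.lt_mul_div_succ (S - 1) (show 0 < w + 3 by omega)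
    rw [← hM] at this
    omega
  have hMS : M * (w + 3) + 1 ≤ S := by
    have := Nat.div_mul_le_self (S - 1) (w + 3)
    rw [← hM] at this
    omega
  have hwd : w + 3 ≤ (60 * d) ^ 60 := by
    have e1 : w = (2 ^ a) ^ 35 * 2 ^ 94 := by
      rw [hw]
      unfold wa
      rw [← pow_mul, ← pow_add]
      congr 1
      ring
    have h1 : 1 ≤ d ^ 35 := Nat.one_le_pow _ _ hd
    have e2 : w ≤ (16 ^ 35 * 2 ^ 94) * d ^ 35 := by
      rw [e1]
      calc (2 ^ a) ^ 35 * 2 ^ 94 ≤ (16 * d) ^ 35 * 2 ^ 94 :=
            Nat.mul_le_mul_right _ (Nat.pow_le_pow_left ha2 35)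
        _ = _ := by
          rw [mul_pow]
          ring
    calc w + 3 ≤ (16 ^ 35 * 2 ^ 94) * d ^ 35 + 3 * d ^ 35 := by omega
      _ = (16 ^ 35 * 2 ^ 94 + 3) * d ^ 35 := by ring
      _ ≤ 60 ^ 60 * d ^ 60 := Nat.mul_le_mul (by norm_num)
          (Nat.pow_le_pow_right hd (by norm_num))
      _ = _ := by rw [mul_pow]
  have hSd : S ≤ (60 * d) ^ 60 * (M + 1) := hSM.trans (Nat.mul_le_mul_right _ hwd)
  rcases Nat.eq_zero_or_pos M with hM0 | hMpos
  · -- one variable
    refine ⟨1, (Circuit.empty 1).setOut (.var 0) (fun j hj => absurd rfl hj), M, ?_, ?_, ?_, ?_,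
      hSd, ⟨1, fun _ _ _ => false, one_pos, fun _ _ => rfl, fun _ _ _ h => h,
        fun D _ _ j h hjh => ?_⟩,
      ⟨1, fun _ _ _ => true, one_pos, fun _ _ => rfl, fun _ _ _ h => h,
        fun D _ _ j h hjh => ?_⟩⟩
    · intro i hi
      exact absurd hi (Nat.not_lt_zero i)
    · exact Nat.zero_le _
    · omega
    · exact Nat.zero_le _
    · have h0 : h = 0 := by omega
      rw [h0, pow_zero, one_mul]
      exact (card_filter_le _ _).trans (by simp)
    · have h0 : h = 0 := by omega
      rw [h0, pow_zero, one_mul]
      exact (card_filter_le _ _).trans (by simp)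
  · obtain ⟨C, c1, c2, c3, c4⟩ := bfn_circuit a M hMpos
    refine ⟨_, C, M, c1, c2.trans (by rw [← hw]; exact hMS), ?_, ?_, hSd, ?_, ?_⟩
    · have h1 : Fintype.card (Bv a M) = M * Fintype.card (Va a) + 2 := by
        rw [Fintype.card_sum, Fintype.card_prod, Fintype.card_fin, Fintype.card_bool]
      have h2 : M * Fintype.card (Va a) ≤ M * w := Nat.mul_le_mul_left _ (hw ▸ va_le a)
      have h3 : M * (w + 3) = M * w + 3 * M := by ring
      omega
    · refine c3.trans ?_
      have h1 : Nat.clog 2 M ≤ Nat.log 2 S + 1 := by
        apply Nat.clog_le_of_le_pow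
        have h2 : S < 2 ^ (Nat.log 2 S + 1) := Nat.lt_pow_succ_log_self (by norm_num) S
        have h3 : M ≤ M * (w + 3) := Nat.le_mul_of_pos_right _ (by omega)
        omega
      have h2 : 2 ^ a * (22 * a + 62) ≤ 16 * d * (22 * (Nat.log 2 d + 4) + 62) :=
        Nat.mul_le_mul ha2 (by omega)
      have h3 : 16 * d * (22 * (Nat.log 2 d + 4) + 62) ≤ 2400 * (d * (Nat.log 2 d + 1)) := by
        calc 16 * d * (22 * (Nat.log 2 d + 4) + 62) ≤ 16 * d * (150 * (Nat.log 2 d + 1)) :=
              Nat.mul_le_mul_left _ (by omega)
          _ = _ := by ring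
      have h4 : 1 ≤ d * (Nat.log 2 d + 1) := Nat.mul_pos hd (Nat.succ_pos _)
      omega
    · -- chains of inputs which are rejected
      have hB0 : Nonempty (Ba a) := ⟨fun _ _ => false⟩
      set N := Fintype.card (Fin M → Ba a) with hN
      have hNe : N = Fintype.card (Ba a) ^ M := by
        rw [hN, Fintype.card_fun, Fintype.card_fin]
      set ε : (Fin M → Ba a) ≃ Fin N := Fintype.equivFin _ with hε
      refine ⟨N, fun i => zin (fun b => eb b) (fun _ => false) true (ε.symm i),
        Fintype.card_pos, fun i j => ?_, fun i j => ?_, fun D hDd hDC j h hjh => ?_⟩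
      · unfold zin
        rw [c4, Bool.eq_false_iff, ne_eq, bfn_or]
        rintro ⟨c, hc⟩
        simp only at hc
        by_cases hcj : c.val < j
        · have h5 : ga a (fun v => eb (ε.symm i c) v) = false := gen_eb _
          have h6 : (fun v => preG (fun b : Ba a => eb b) (fun _ => false) (ε.symm i) j c v) =
              fun v => eb (ε.symm i c) v := by
            funext v
            unfold preG
            rw [if_pos hcj]
          rw [h6, h5] at hc
          exact absurd hc (by simp)
        · have h5 : ga a (fun _ => false) = false := gen_zero _ _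
          have h6 : (fun v => preG (fun b : Ba a => eb b) (fun _ => false) (ε.symm i) j c v) =
              fun _ => false := by
            funext v
            unfold preG
            rw [if_neg hcj]
          rw [h6, h5] at hc
          exact absurd hc (by simp)
      · unfold zin
        apply binp_mono
        intro p hp
        unfold preG at hp ⊢
        by_cases h2 : p.1.val < j
        · rw [if_pos h2] at hp
          rw [if_pos (by omega)]
          exact hp
        · rw [if_neg h2] at hp
          exact absurd hp (by simp)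
      · have h1 := win_above hDd ha3 (fun z hz => hDC _ (by
          rw [c4, bfn_or]
          exact hz)) j h hjh
        have h2 : (univ.filter (fun i : Fin N =>
            D.eval (zin (fun b => eb b) (fun _ => false) true (ε.symm i) (j + h)) = false ∧
            ∀ l < h, ¬ NotChange D
              (zin (fun b => eb b) (fun _ => false) true (ε.symm i) (j + l))
              (zin (fun b => eb b) (fun _ => false) true (ε.symm i) (j + l + 1)))).card =
            (univ.filter (fun y : Fin M → Ba a =>
              D.eval (zin (fun b => eb b) (fun _ => false) true y (j + h)) = false ∧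
              ∀ l < h, ¬ NotChange D (zin (fun b => eb b) (fun _ => false) true y (j + l))
                (zin (fun b => eb b) (fun _ => false) true y (j + l + 1)))).card := by
          refine card_bij (fun i _ => ε.symm i) ?_ ?_ ?_
          · intro i hi
            exact mem_filter.mpr ⟨mem_univ _, (mem_filter.mp hi).2⟩
          · intro i _ j _ hij
            exact ε.symm.injective hij
          · intro y hy
            refine ⟨ε y, mem_filter.mpr ⟨mem_univ _, ?_⟩, by simp⟩
            rw [Equiv.symm_apply_apply]
            exact (mem_filter.mp hy).2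
        rw [← hNe, mul_comm] at h1
        refine le_trans (Nat.mul_le_mul_left _ (le_of_eq ?_)) h1
        exact h2
    · -- chains of inputs which are accepted
      have hA0 : Nonempty (Aa a) := ⟨fun _ => 0⟩
      set N := Fintype.card (Fin M → Aa a) with hN
      have hNe : N = Fintype.card (Aa a) ^ M := by
        rw [hN, Fintype.card_fun, Fintype.card_fin]
      set ε : (Fin M → Aa a) ≃ Fin N := Fintype.equivFin _ with hε
      refine ⟨N, fun i => zin (fun b => ea b) (fun _ => true) false (ε.symm i),
        Fintype.card_pos, fun i j => ?_, fun i j => ?_, fun D hDd hDC j h hjh => ?_⟩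
      · unfold zin
        rw [c4, bfn_and]
        intro c
        by_cases hcj : c.val < j
        · have h6 : (fun v => preG (fun b : Aa a => ea b) (fun _ => true) (ε.symm i) j c v) =
              fun v => ea (ε.symm i c) v := by
            funext v
            unfold preG
            rw [if_pos hcj]
          simp only
          rw [h6]
          exact gen_ea _
        · have h6 : (fun v => preG (fun b : Aa a => ea b) (fun _ => true) (ε.symm i) j c v) =
              fun _ => true := by
            funext v
            unfold preG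
            rw [if_neg hcj]
          simp only
          rw [h6]
          exact gen_one 0
      · unfold zin
        apply binp_mono
        intro p hp
        unfold preG at hp ⊢
        by_cases h2 : p.1.val < j
        · rw [if_pos (by omega)] at hp
          rw [if_pos h2]
          exact hp
        · rw [if_neg h2]
      · have h1 := win_below hDd hapos ha3 (fun z hz => by
          rw [← bfn_and, ← c4]
          exact hDC _ hz) j h hjh
        have h2 : (univ.filter (fun i : Fin N =>
            D.eval (zin (fun b => ea b) (fun _ => true) false (ε.symm i) (j + h)) = true ∧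
            ∀ l < h, ¬ NotChange D
              (zin (fun b => ea b) (fun _ => true) false (ε.symm i) (j + l))
              (zin (fun b => ea b) (fun _ => true) false (ε.symm i) (j + l + 1)))).card =
            (univ.filter (fun y : Fin M → Aa a =>
              D.eval (zin (fun b => ea b) (fun _ => true) false y (j + h)) = true ∧
              ∀ l < h, ¬ NotChange D (zin (fun b => ea b) (fun _ => true) false y (j + l))
                (zin (fun b => ea b) (fun _ => true) false y (j + l + 1)))).card := by
          refine card_bij (fun i _ => ε.symm i) ?_ ?_ ?_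
          · intro i hi
            exact mem_filter.mpr ⟨mem_univ _, (mem_filter.mp hi).2⟩
          · intro i _ j _ hij
            exact ε.symm.injective hij
          · intro y hy
            refine ⟨ε y, mem_filter.mpr ⟨mem_univ _, ?_⟩, by simp⟩
            rw [Equiv.symm_apply_apply]
            exact (mem_filter.mp hy).2
        rw [← hNe, mul_comm] at h1
        refine le_trans (Nat.mul_le_mul_left _ (le_of_eq ?_)) h1
        exact h2

end Pool.Agent.T9h35.NW
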