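import Pool.Agent.T9h35.NW.Dual
import Pool.Agent.T9h35.NW.Prod
import Pool.Agent.T9h19.RM.WMain
import Pool.Agent.T9h19.RM.ZChg

/-!
# Segments of random chains on which the NOT gates do not change
-/

set_option autoImplicit false

namespace Pool.Agent.T9h35.NW

open Finset Pool.Agent.H540R2 Pool.Agent.H540R2.Circuit Pool.Agent.T9h19.RM

lemma mo_dual {σ : Type} {f : (σ → Bool) → Bool} {d : ℕ} (h : Mo f d) :
    Mo (fun x => !(f (fun k => !(x k)))) d := by
  obtain ⟨F, h1, h2⟩ := h
  have key : ∀ F : MF σ, ∃ F' : MF σ, F'.depth = F.depth ∧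
      ∀ x, F'.eval x = !(F.eval (fun k => !(x k))) := by
    intro F
    induction F with
    | var v => exact ⟨.var v, rfl, fun x => by simp [MF.eval]⟩
    | const b => exact ⟨.const (!b), rfl, fun x => rfl⟩
    | and F G hF hG =>
      obtain ⟨F', f1, f2⟩ := hF
      obtain ⟨G', g1, g2⟩ := hG
      exact ⟨.or F' G', by simp [MF.depth, f1, g1], fun x => by simp [MF.eval, f2, g2]⟩
    | or F G hF hG =>
      obtain ⟨F', f1, f2⟩ := hF
      obtain ⟨G', g1, g2⟩ := hG
      exact ⟨.and F' G', by simp [MF.depth, f1, g1], fun x => by simp [MF.eval, f2, g2]⟩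
  obtain ⟨F', f1, f2⟩ := key F
  exact ⟨F', f1.trans_le h1, fun x => by rw [f2, h2]⟩

variable {n : ℕ}

/-- the detector for smaller inputs -/
lemma det_down (D : Circuit n) (ξ : Fin n → Bool) :
    ∃ T : (Fin n → Bool) → Bool, Mo T D.depth ∧ ∀ z, (∀ k, z k = true → ξ k = true) →
      (D.eval z = false → T z = false) ∧ (T z = false → D.eval z = false ∨ NotChange D ξ z) := by
  obtain ⟨T, h1, h2⟩ := det_circuit (dc D) (fun k => !(ξ k))
  rw [depth_dc] at h1
  refine ⟨fun z => !(T (fun k => !(z k))), mo_dual h1, fun z hz => ?_⟩
  obtain ⟨h3, h4⟩ := h2 (fun k => !(z k)) (fun k hk => by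
    rw [Bool.not_eq_true'] at hk ⊢
    rw [Bool.eq_false_iff] at hk ⊢
    exact fun h => hk (hz k h))
  rw [eval_dc] at h3 h4
  constructor
  · intro h
    rw [h] at h3
    show (!(T (fun k => !(z k)))) = false
    rw [h3 rfl]
    rfl
  · intro h
    have h5 : T (fun k => !(z k)) = true := by simpa using h
    rcases h4 h5 with h6 | h6
    · left
      simpa using h6
    · right
      exact change_dc h6

variable {a M d : ℕ}

lemma binp_mono {z z' : Fin M × Va a → Bool} {s : Bool}
    (h : ∀ p, z p = true → z' p = true) : ∀ k, binp z s k = true → binp z' s k = true := by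
  intro k
  unfold binp
  cases (bnu a M).symm k with
  | inl p => exact h p
  | inr b => exact id

lemma binp_mo' {T : (Fin (Fintype.card (Bv a M)) → Bool) → Bool} (hT : Mo T d) (s : Bool) :
    Mo (fun z : Fin M × Va a → Bool => T (binp z s)) d := by
  refine (hT.sub (fun i => Sum.elim (fun p => MF.var p)
    (fun b => MF.const (decide (b = s))) ((bnu a M).symm i)) (fun i => ?_)).congr fun z => ?_
  · cases (bnu a M).symm i <;> rfl
  · congr 1
    funext i
    unfold binp
    cases (bnu a M).symm i <;> rfl

/-- the inputs of the chains -/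
noncomputable def zin {B : Type} (enc : B → Va a → Bool) (f₀ : Va a → Bool) (s : Bool)
    (y : Fin M → B) (j : ℕ) : Fin (Fintype.card (Bv a M)) → Bool :=
  binp (fun p => preG enc f₀ y j p.1 p.2) s

open Classical in
/-- **Segments without a change, approximation from above.** -/
theorem win_above {D : Circuit (Fintype.card (Bv a M))} (hDd : D.depth ≤ d)
    (hd : a + 1 + d + 1 < 2 ^ a)
    (hD : ∀ z : Fin M × Va a → Bool, (∃ c, ga a (fun v => z (c, v)) = true) →
      D.eval (binp z true) = true) (i h : ℕ) (hih : i + h ≤ M) :
    (univ.filter (fun y : Fin M → Ba a =>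
      D.eval (zin (fun b => eb b) (fun _ => false) true y (i + h)) = false ∧
      ∀ l < h, ¬ NotChange D (zin (fun b => eb b) (fun _ => false) true y (i + l))
        (zin (fun b => eb b) (fun _ => false) true y (i + l + 1)))).card * 2 ^ h ≤
      Fintype.card (Ba a) ^ M := by
  have hB : 0 < Fintype.card (Ba a) := by
    have : Nonempty (Ba a) := ⟨fun _ _ => false⟩
    exact Fintype.card_pos
  have hup : ∀ (y : Fin M → Ba a) (j : Fin M) (w : Va a → Bool),
      ∀ k, binp (fun p => preG (fun b : Ba a => eb b) (fun _ => false) y j.val p.1 p.2) true k =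
        true → binp (fun p => Function.update
          (preG (fun b : Ba a => eb b) (fun _ => false) y j.val) j w p.1 p.2) true k = true := by
    intro y j w
    apply binp_mono
    intro p hp
    by_cases hpj : p.1 = j
    · exfalso
      unfold preG at hp
      rw [hpj, if_neg (lt_irrefl _)] at hp
      exact absurd hp (by simp)
    · rw [Function.update_of_ne hpj]
      exact hp
  have hw := window_prod (M := M) (fun b : Ba a => eb b) (fun _ => false)
    (fun z => D.eval (binp (fun p => z p.1 p.2) true) = false)
    (fun z z' => ¬ NotChange D (binp (fun p => z p.1 p.2) true)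
      (binp (fun p => z' p.1 p.2) true)) 2 hB ?_ ?_ i h hih
  · unfold zin
    convert hw
  · intro y j h1 h2
    obtain ⟨T, t1, t2⟩ := det_circuit D (binp (fun p =>
      preG (fun b : Ba a => eb b) (fun _ => false) y j.val p.1 p.2) true)
    have h3 := hup y j (eb (y j))
    rw [preG_succ] at h1 h2
    have h4 : T (binp (fun p => Function.update
          (preG (fun b : Ba a => eb b) (fun _ => false) y j.val) j (eb (y j)) p.1 p.2) true) =
        false := by
      rw [Bool.eq_false_iff]
      intro hc
      rcases (t2 _ h3).2 hc with h5 | h5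
      · rw [h1] at h5
        exact absurd h5 (by simp)
      · exact h2 h5
    rw [Bool.eq_false_iff]
    intro hc
    have h5 := (t2 _ (fun k hk => hk)).1 hc
    have h6 := t1.evalMono h3 h5
    rw [h4] at h6
    exact absurd h6 (by simp)
  · intro y j
    obtain ⟨T, t1, t2⟩ := det_circuit D (binp (fun p =>
      preG (fun b : Ba a => eb b) (fun _ => false) y j.val p.1 p.2) true)
    have hmo := block_mo (binp_mo' (t1.mono hDd) true)
      (preG (fun b : Ba a => eb b) (fun _ => false) y j.val) j
    have hsub : (univ.filter (fun b : Ba a =>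
        D.eval (binp (fun p => Function.update
          (preG (fun b : Ba a => eb b) (fun _ => false) y j.val) j (eb b) p.1 p.2) true) = false ∧
        ¬ NotChange D (binp (fun p =>
          preG (fun b : Ba a => eb b) (fun _ => false) y j.val p.1 p.2) true)
          (binp (fun p => Function.update
          (preG (fun b : Ba a => eb b) (fun _ => false) y j.val) j (eb b) p.1 p.2) true))) ⊆
        univ.filter (fun b : Ba a => T (binp (fun p => Function.update
          (preG (fun b : Ba a => eb b) (fun _ => false) y j.val) j (eb b) p.1 p.2) true) =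
            false) := by
      intro b hb
      obtain ⟨-, h1, h2⟩ := mem_filter.mp hb
      refine mem_filter.mpr ⟨mem_univ _, ?_⟩
      rw [Bool.eq_false_iff]
      intro hc
      rcases (t2 _ (hup y j (eb b))).2 hc with h5 | h5
      · rw [h1] at h5
        exact absurd h5 (by simp)
      · exact h2 h5
    refine le_trans (Nat.mul_le_mul_right _ (le_trans (le_of_eq ?_) (card_le_card hsub))) ?_
    · congr!
    rcases gen_avg2 a hmo hd with h1 | h1
    · exfalso
      have h2 : (univ.filter (fun x : Aa a => T (binp (fun p => Function.update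
          (preG (fun b : Ba a => eb b) (fun _ => false) y j.val) j (ea x) p.1 p.2) true) =
            true)) = univ := by
        rw [filter_eq_self]
        intro x _
        refine (t2 _ (hup y j (ea x))).1 (hD _ ⟨j, ?_⟩)
        simp only [Function.update_self]
        exact gen_ea _
      rw [h2, card_univ] at h1
      have h3 : Fintype.card (Aa a) ≤ Fintype.card (Aa a) * 2 ^ a :=
        Nat.le_mul_of_pos_right _ (by positivity)
      omega
    · have h2 : (1 : ℕ) ≤ 2 ^ a := Nat.one_le_two_pow
      refine le_trans (Nat.mul_le_mul_left _ ?_) h1.le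
      omega

open Classical in
/-- **Segments without a change, approximation from below.** -/
theorem win_below {D : Circuit (Fintype.card (Bv a M))} (hDd : D.depth ≤ d) (ha : 1 ≤ a)
    (hd : a + 1 + d + 1 < 2 ^ a)
    (hD : ∀ z : Fin M × Va a → Bool, D.eval (binp z false) = true →
      ∀ c, ga a (fun v => z (c, v)) = true) (i h : ℕ) (hih : i + h ≤ M) :
    (univ.filter (fun y : Fin M → Aa a =>
      D.eval (zin (fun b => ea b) (fun _ => true) false y (i + h)) = true ∧
      ∀ l < h, ¬ NotChange D (zin (fun b => ea b) (fun _ => true) false y (i + l))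
        (zin (fun b => ea b) (fun _ => true) false y (i + l + 1)))).card * 2 ^ h ≤
      Fintype.card (Aa a) ^ M := by
  have hB : 0 < Fintype.card (Aa a) := by
    have : Nonempty (Aa a) := ⟨fun _ => 0⟩
    exact Fintype.card_pos
  have hup : ∀ (y : Fin M → Aa a) (j : Fin M) (w : Va a → Bool),
      ∀ k, binp (fun p => Function.update
          (preG (fun b : Aa a => ea b) (fun _ => true) y j.val) j w p.1 p.2) false k = true →
        binp (fun p => preG (fun b : Aa a => ea b) (fun _ => true) y j.val p.1 p.2) false k =
        true := by
    intro y j w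
    apply binp_mono
    intro p hp
    by_cases hpj : p.1 = j
    · unfold preG
      rw [hpj, if_neg (lt_irrefl _)]
    · rw [Function.update_of_ne hpj] at hp
      exact hp
  have hw := window_prod (M := M) (fun b : Aa a => ea b) (fun _ => true)
    (fun z => D.eval (binp (fun p => z p.1 p.2) false) = true)
    (fun z z' => ¬ NotChange D (binp (fun p => z p.1 p.2) false)
      (binp (fun p => z' p.1 p.2) false)) 2 hB ?_ ?_ i h hih
  · unfold zin
    convert hw
  · intro y j h1 h2
    obtain ⟨T, t1, t2⟩ := det_down D (binp (fun p =>
      preG (fun b : Aa a => ea b) (fun _ => true) y j.val p.1 p.2) false)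
    have h3 := hup y j (ea (y j))
    rw [preG_succ] at h1 h2
    have h4 : T (binp (fun p => Function.update
          (preG (fun b : Aa a => ea b) (fun _ => true) y j.val) j (ea (y j)) p.1 p.2) false) =
        true := by
      by_contra hc
      rw [Bool.not_eq_true] at hc
      rcases (t2 _ h3).2 hc with h5 | h5
      · rw [h1] at h5
        exact absurd h5 (by simp)
      · exact h2 h5
    by_contra hc
    rw [Bool.not_eq_true] at hc
    have h5 := (t2 _ (fun k hk => hk)).1 hc
    have h6 := t1.evalMono h3 h4
    rw [h5] at h6
    exact absurd h6 (by simp)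
  · intro y j
    obtain ⟨T, t1, t2⟩ := det_down D (binp (fun p =>
      preG (fun b : Aa a => ea b) (fun _ => true) y j.val p.1 p.2) false)
    have hmo := block_mo (binp_mo' (t1.mono hDd) false)
      (preG (fun b : Aa a => ea b) (fun _ => true) y j.val) j
    have hsub : (univ.filter (fun b : Aa a =>
        D.eval (binp (fun p => Function.update
          (preG (fun b : Aa a => ea b) (fun _ => true) y j.val) j (ea b) p.1 p.2) false) = true ∧
        ¬ NotChange D (binp (fun p =>
          preG (fun b : Aa a => ea b) (fun _ => true) y j.val p.1 p.2) false)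
          (binp (fun p => Function.update
          (preG (fun b : Aa a => ea b) (fun _ => true) y j.val) j (ea b) p.1 p.2) false))) ⊆
        univ.filter (fun b : Aa a => T (binp (fun p => Function.update
          (preG (fun b : Aa a => ea b) (fun _ => true) y j.val) j (ea b) p.1 p.2) false) =
            true) := by
      intro b hb
      obtain ⟨-, h1, h2⟩ := mem_filter.mp hb
      refine mem_filter.mpr ⟨mem_univ _, ?_⟩
      by_contra hc
      rw [Bool.not_eq_true] at hc
      rcases (t2 _ (hup y j (ea b))).2 hc with h5 | h5
      · rw [h1] at h5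
        exact absurd h5 (by simp)
      · exact h2 h5
    refine le_trans (Nat.mul_le_mul_right _ (le_trans (le_of_eq ?_) (card_le_card hsub))) ?_
    · congr!
    rcases gen_avg2 a hmo hd with h1 | h1
    · have h2 : (2 : ℕ) ≤ 2 ^ a := by
        calc (2 : ℕ) = 2 ^ 1 := rfl
          _ ≤ 2 ^ a := Nat.pow_le_pow_right (by norm_num) ha
      exact le_trans (Nat.mul_le_mul_left _ h2) h1.le
    · exfalso
      have h2 : (univ.filter (fun x : Ba a => T (binp (fun p => Function.update
          (preG (fun b : Aa a => ea b) (fun _ => true) y j.val) j (eb x) p.1 p.2) false) =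
            false)) = univ := by
        rw [filter_eq_self]
        intro x _
        refine (t2 _ (hup y j (eb x))).1 ?_
        rw [Bool.eq_false_iff]
        intro h3
        have h4 := hD _ h3 j
        simp only [Function.update_self] at h4
        have h5 : ga a (fun v => eb x v) = false := gen_eb _
        rw [h5] at h4
        exact absurd h4 (by simp)
      rw [h2, card_univ] at h1
      have h3 : Fintype.card (Ba a) ≤ Fintype.card (Ba a) * (2 * 2 ^ a) :=
        Nat.le_mul_of_pos_right _ (by positivity)
      omega

end Pool.Agent.T9h35.NW
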